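import Pool.Agent.H66.XP.TH

/-!
# Row CNX of the board xpm_modules: numbers of instances and of queries
-/

set_option autoImplicit false

namespace Pool.Agent.H27.XP

open Finset Pool.Agent.H6.NB Pool.Agent.H70.OQ Pool.Agent.H70.EH Pool.Agent.H70.EI Pool.Agent.H78.XQ
open Pool.Agent.H66.IP (Local ins sp dm IsZ scl)
open Pool.Agent.H66.IQ Pool.Agent.H66.AV Pool.Agent.H66.XP

theorem enc_inj (i : ℕ) : ∀ (j : ℕ) (x y : List Bool),
    List.replicate i false ++ true :: x = List.replicate j false ++ true :: y → i = j ∧ x = y := by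
  induction i with
  | zero =>
    intro j x y h
    cases j with
    | zero => simpa using h
    | succ j => simp [List.replicate_succ] at h
  | succ i ih =>
    intro j x y h
    cases j with
    | zero => simp [List.replicate_succ] at h
    | succ j =>
      rw [List.replicate_succ, List.replicate_succ, List.cons_append, List.cons_append] at h
      obtain ⟨h1, h2⟩ := ih j x y (List.cons_injective h)
      exact ⟨by rw [h1], h2⟩

/-- the list of `a` -/
def en (a : ℕ × List Bool) : List Bool := List.replicate a.1 false ++ true :: a.2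

theorem en_length (a : ℕ × List Bool) : (en a).length = a.1 + (a.2.length + 1) := by
  simp [en]

theorem cnt (r : ℕ) (F : Finset (ℕ × List Bool)) (h : ∀ a ∈ F, a.2.length + a.1 + 20 ≤ r) :
    F.card ≤ 2 ^ r := by
  classical
  have h1 : F.card ≤ ((Finset.range r).sigma fun m => (univ : Finset (Fin m → Bool))).card := by
    refine Finset.card_le_card_of_injOn (fun a => ⟨(en a).length, (en a).get⟩) ?_ ?_
    · intro a ha
      have h2 := h a ha
      rw [Finset.mem_coe, Finset.mem_sigma, Finset.mem_range]
      refine ⟨?_, Finset.mem_univ _⟩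
      simp only [en_length]
      omega
    · intro a _ b _ hab
      have h3 := congrArg (fun s : Σ m, Fin m → Bool => List.ofFn s.2) hab
      simp only [List.ofFn_get] at h3
      obtain ⟨h4, h5⟩ := enc_inj _ _ _ _ h3
      exact Prod.ext h4 h5
  refine h1.trans ?_
  rw [Finset.card_sigma]
  have h6 : ∑ m ∈ Finset.range r, (univ : Finset (Fin m → Bool)).card =
      ∑ m ∈ Finset.range r, 2 ^ m := by
    refine Finset.sum_congr rfl fun m _ => ?_
    simp
  rw [h6]
  exact (Nat.geomSum_lt le_rfl fun k hk => Finset.mem_range.1 hk).le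

theorem pf_CNX : T_CNX := by
  intro V E r
  refine ⟨?_, ?_, ?_⟩
  · have h1 : ∀ a ∈ E.filter (fun a => scl (lo V) a ≤ r), ((V a.1).tree a.2).depth ≤ 2 ^ r := by
      intro a ha
      have h2 := (Finset.mem_filter.1 ha).2
      refine ((V a.1).depth_le a.2).trans (Nat.pow_le_pow_right two_pos ?_)
      have h3 : scl (lo V) a = a.2.length + a.1 + (a.2.length ^ (V a.1).c + (V a.1).c) + 20 := rfl
      omega
    have h4 : (E.filter fun a => scl (lo V) a ≤ r).card ≤ 2 ^ r := by
      refine cnt r _ fun a ha => ?_
      have h2 := (Finset.mem_filter.1 ha).2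
      have h3 : scl (lo V) a = a.2.length + a.1 + (a.2.length ^ (V a.1).c + (V a.1).c) + 20 := rfl
      omega
    calc ∑ a ∈ E.filter (fun a => scl (lo V) a ≤ r), ((V a.1).tree a.2).depth
        ≤ (E.filter fun a => scl (lo V) a ≤ r).card • 2 ^ r := Finset.sum_le_card_nsmul _ _ _ h1
      _ ≤ 2 ^ r * 2 ^ r := by
        rw [smul_eq_mul]
        exact Nat.mul_le_mul_right _ h4
      _ = 2 ^ (2 * r) := by
        rw [← pow_add, two_mul]
  · refine cnt r _ fun a ha => ?_
    have h2 := (Finset.mem_filter.1 ha).2
    have h3 : scl (lo V) a = a.2.length + a.1 + (a.2.length ^ (V a.1).c + (V a.1).c) + 20 := rfl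
    omega
  · intro a
    unfold scl
    omega

end Pool.Agent.H27.XP
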