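import Pool.Agent.H66.XP.TH

/-!
# Row GZX of the board xpm_modules: one of the tables is changed, and the values
-/

set_option autoImplicit false

namespace Pool.Agent.H27.XP

open Finset Pool.Agent.H6.NB Pool.Agent.H70.OQ Pool.Agent.H70.EH Pool.Agent.H70.EI Pool.Agent.H78.XQ
open Pool.Agent.H66.AV Pool.Agent.H66.XP

/-- the strings of the tables determine the place -/
theorem gzx_inj (hAST : Pool.Agent.H66.AV.T_AST) {M : ℕ}
    (y y' : Σ t : Fin M × Fin M, (Fin t.2.1 → Bool) × Nn t.2.1 t.1.1)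
    (h : astr y.1.2.1 y.1.1.1 y.2.1 y.2.2 = astr y'.1.2.1 y'.1.1.1 y'.2.1 y'.2.2) : y = y' := by
  obtain ⟨⟨⟨k, hk⟩, ⟨n, hn⟩⟩, x, q⟩ := y
  obtain ⟨⟨⟨k', hk'⟩, ⟨n', hn'⟩⟩, x', q'⟩ := y'
  obtain ⟨h1, h2⟩ := hAST.2.2 _ _ _ _ _ _ _ _ h
  simp only at h1 h2
  subst h1
  subst h2
  obtain ⟨h3, h4⟩ := hAST.2.1 _ _ _ _ _ _ h
  simp only at h3 h4
  subst h3
  subst h4
  rfl

/-- the value of the default oracle at the strings of the tables -/
theorem gzx_at (hAST : Pool.Agent.H66.AV.T_AST) {M : ℕ} (z : Za M)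
    (y : Σ t : Fin M × Fin M, (Fin t.2.1 → Bool) × Nn t.2.1 t.1.1) :
    gzx M z (astr y.1.2.1 y.1.1.1 y.2.1 y.2.2) = tbl (z y.1) y.2.1 y.2.2 := by
  have h : ∃ y' : Σ t : Fin M × Fin M, (Fin t.2.1 → Bool) × Nn t.2.1 t.1.1,
      astr y.1.2.1 y.1.1.1 y.2.1 y.2.2 = astr y'.1.2.1 y'.1.1.1 y'.2.1 y'.2.2 := ⟨y, rfl⟩
  unfold gzx
  rw [dif_pos h]
  have h1 : h.choose = y := (gzx_inj hAST _ _ h.choose_spec).symm
  rw [h1]

/-- the other strings -/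
theorem gzx_no {M : ℕ} (z z' : Za M) (w : List Bool)
    (h : ¬ ∃ y : Σ t : Fin M × Fin M, (Fin t.2.1 → Bool) × Nn t.2.1 t.1.1,
      w = astr y.1.2.1 y.1.1.1 y.2.1 y.2.2) : gzx M z w = gzx M z' w := by
  unfold gzx
  rw [dif_neg h, dif_neg h]

/-- the value of the oracle with tables -/
theorem ovl_at (hAST : Pool.Agent.H66.AV.T_AST) (n k : ℕ) (g : List Bool → Bool)
    (T : (Fin n → Bool) → Nn n k → Bool) (x : Fin n → Bool) (q : Nn n k) :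
    ovl n k g T (astr n k x q) = T x q := by
  have h : ∃ y : (Fin n → Bool) × Nn n k, astr n k x q = astr n k y.1 y.2 := ⟨(x, q), rfl⟩
  unfold ovl
  rw [dif_pos h]
  obtain ⟨h1, h2⟩ := hAST.2.1 _ _ _ _ _ _ h.choose_spec
  rw [← h1, ← h2]

/-- the other strings -/
theorem ovl_no (n k : ℕ) (g : List Bool → Bool) (T : (Fin n → Bool) → Nn n k → Bool)
    (w : List Bool) (h : ¬ ∃ y : (Fin n → Bool) × Nn n k, w = astr n k y.1 y.2) :
    ovl n k g T w = g w := by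
  unfold ovl
  rw [dif_neg h]

theorem pf_GZX (hAST : Pool.Agent.H66.AV.T_AST) : T_GZX := by
  refine ⟨?_, ?_, ?_, ?_⟩
  · intro M z t c
    funext w
    by_cases h : ∃ y : Σ t : Fin M × Fin M, (Fin t.2.1 → Bool) × Nn t.2.1 t.1.1,
        w = astr y.1.2.1 y.1.1.1 y.2.1 y.2.2
    · obtain ⟨y, rfl⟩ := h
      rw [gzx_at hAST]
      by_cases h1 : y.1 = t
      · subst h1
        rw [Function.update_self, ovl_at hAST]
      · rw [Function.update_of_ne h1, ovl_no, gzx_at hAST]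
        rintro ⟨y', h2⟩
        obtain ⟨h3, h4⟩ := hAST.2.2 _ _ _ _ _ _ _ _ h2
        exact h1 (Prod.ext (Fin.ext h4) (Fin.ext h3))
    · rw [gzx_no _ z _ h, ovl_no]
      rintro ⟨y', h2⟩
      exact h ⟨⟨t, y'⟩, h2⟩
  · intro M z t x q
    exact gzx_at hAST z ⟨t, x, q⟩
  · intro M z n k x q hnk
    have h : ¬ ∃ y : Σ t : Fin M × Fin M, (Fin t.2.1 → Bool) × Nn t.2.1 t.1.1,
        astr n k x q = astr y.1.2.1 y.1.1.1 y.2.1 y.2.2 := by
      rintro ⟨y, h2⟩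
      obtain ⟨h3, h4⟩ := hAST.2.2 _ _ _ _ _ _ _ _ h2
      exact hnk ⟨h4 ▸ y.1.1.2, h3 ▸ y.1.2.2⟩
    unfold gzx
    rw [dif_neg h, if_pos ⟨n, k, x, q, rfl⟩]
  · intro M z z' w h
    refine gzx_no z z' w ?_
    rintro ⟨y, h2⟩
    exact h _ _ _ _ h2

end Pool.Agent.H27.XP
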